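import Pool.Agent.helper36.V3.SpecW

/-!
# v3:CRB: a critical point at a bounded distance
-/

set_option autoImplicit false

open Complex Metric Set Filter Topology MeasureTheory

noncomputable section

namespace V3W

theorem CRB : CRB_stmt := by
  intro n a hn ha
  refine ⟨n * a * a + 1, by positivity, ?_⟩
  rintro f ⟨hdeg, hco, hl⟩
  have hlead : f.leadingCoeff ≠ 0 := by
    intro h0
    rw [h0, norm_zero, mul_zero] at hl
    linarith
  have hdd : f.derivative.degree = ((n - 1 : ℕ) : WithBot ℕ) := by
    rw [Polynomial.degree_derivative (by omega), hdeg]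
  have hd0 : f.derivative ≠ 0 := by
    intro h0
    rw [h0, Polynomial.degree_zero] at hdd
    exact absurd hdd (by simp)
  obtain ⟨y, hy⟩ := IsAlgClosed.exists_root f.derivative (by
    rw [hdd]
    intro h0
    have : n - 1 = 0 := by exact_mod_cast h0
    omega)
  refine ⟨y, ?_, hy⟩
  have h1 := hy.norm_lt_cauchyBound hd0
  have hnd : f.derivative.natDegree = n - 1 := Polynomial.natDegree_eq_of_degree_eq_some hdd
  have hlc : f.derivative.leadingCoeff = f.leadingCoeff * n := by
    rw [Polynomial.leadingCoeff, hnd, Polynomial.coeff_derivative]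
    rw [show n - 1 + 1 = n by omega, Polynomial.leadingCoeff, hdeg]
    congr 1
    rw [Nat.cast_sub (by omega : 1 ≤ n)]
    push_cast
    ring
  have hn0 : (0 : ℝ) < n := by
    have : 0 < n := by omega
    exact_mod_cast this
  have h2 : (Polynomial.cauchyBound f.derivative : ℝ) ≤ n * a * a + 1 := by
    rw [Polynomial.cauchyBound]
    push_cast
    rw [hlc, norm_mul, Complex.norm_natCast]
    have hL : 0 < ‖f.leadingCoeff‖ := norm_pos_iff.2 hlead
    have hs : (((Finset.range f.derivative.natDegree).sup fun i => ‖f.derivative.coeff i‖₊ : NNReal) : ℝ) ≤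
        a * n := by
      have hs' : ((Finset.range f.derivative.natDegree).sup fun i => ‖f.derivative.coeff i‖₊ : NNReal) ≤
          ⟨a * n, by positivity⟩ := by
        refine Finset.sup_le fun i hi => ?_
        rw [Finset.mem_range, hnd] at hi
        rw [← NNReal.coe_le_coe, coe_nnnorm]
        change ‖f.derivative.coeff i‖ ≤ a * n
        rw [Polynomial.coeff_derivative, norm_mul]
        have h3 : ‖((i : ℂ) + 1)‖ ≤ n := by
          have h4 : ((i : ℂ) + 1) = ((i + 1 : ℕ) : ℂ) := by push_cast; ring
          rw [h4, Complex.norm_natCast]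
          exact_mod_cast (by omega : i + 1 ≤ n)
        exact mul_le_mul (hco _) h3 (norm_nonneg _) ha.le
      exact_mod_cast hs'
    have h5 : (((Finset.range f.derivative.natDegree).sup fun i => ‖f.derivative.coeff i‖₊ : NNReal) : ℝ) /
        (‖f.leadingCoeff‖ * n) ≤ n * a * a := by
      rw [div_le_iff₀ (by positivity)]
      refine hs.trans ?_
      have h6 : a * n * 1 ≤ a * n * (a * ‖f.leadingCoeff‖) * n := by
        have h7 : (1 : ℝ) ≤ (a * ‖f.leadingCoeff‖) * n := by
          have h8 : (1 : ℝ) ≤ n := by exact_mod_cast (by omega : 1 ≤ n)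
          nlinarith
        calc a * n * 1 ≤ a * n * ((a * ‖f.leadingCoeff‖) * n) :=
              mul_le_mul_of_nonneg_left h7 (by positivity)
          _ = _ := by ring
      nlinarith
    linarith
  have h3 : ‖y‖ < (Polynomial.cauchyBound f.derivative : ℝ) := by
    exact_mod_cast h1
  linarith

end V3W
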