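import Pool.Agent.helper54.V3.SpecG

/-!
# v3:GEND: the final contradiction
-/

set_option autoImplicit false

open Complex Metric Set Filter Topology MeasureTheory MPS V3

noncomputable section

namespace V3S

theorem GEND (hGGL : GGL_stmt) (hGML : GML_stmt) (hENDG : V3.ENDG_stmt) (hGFM : GFM_stmt)
    (hGZF : GZF_stmt) : GEND_stmt := by
  intro n ra Cf D hS hL
  obtain ⟨g, hg⟩ := hGGL n ra Cf D hS hL
  obtain ⟨A, q, θ, hA, hLim⟩ := hGML n ra Cf D g hS hL hg
  rcases hENDG _ A g _ _ q θ hLim with ⟨hP, hB⟩ | ⟨t, c', ht, hP, hA1, hc', hv, hvB⟩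
  · exact hGFM n ra Cf D hS hL hP hB
  · exact hGZF n ra Cf D A t c' hS hL hA ht hP hA1 hc' hv hvB

end V3S
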