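import Pool.Agent.helper54.V3.SpecT

/-!
# v3:NLP: the limit set of labels
-/

set_option autoImplicit false

open Complex Metric Set Filter Topology MeasureTheory

noncomputable section

namespace V3

theorem NLP_fin (P : Set ℂ) (c R : ℝ) (hc : 0 < c) (hP : ∀ q ∈ P, ∀ q' ∈ P, q ≠ q' → c ≤ ‖q - q'‖) :
    {q | q ∈ P ∧ ‖q‖ < R}.Finite := by
  by_contra hinf
  have hsub : {q | q ∈ P ∧ ‖q‖ < R} ⊆ closedBall (0 : ℂ) R := by
    rintro q ⟨_, hq⟩
    rw [mem_closedBall_zero_iff]
    exact hq.le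
  obtain ⟨x, -, hx⟩ := Set.Infinite.exists_accPt_of_subset_isCompact hinf (isCompact_closedBall _ _) hsub
  rw [accPt_iff_frequently] at hx
  obtain ⟨y, ⟨hyx, hyP, -⟩, hy⟩ := (hx.and_eventually (ball_mem_nhds x (half_pos hc))).exists
  have hd : 0 < min (c / 2) (dist y x) := lt_min (half_pos hc) (dist_pos.2 hyx)
  obtain ⟨z, ⟨hzx, hzP, -⟩, hz⟩ := (hx.and_eventually (ball_mem_nhds x hd)).exists
  change dist y x < c / 2 at hy
  change dist z x < min (c / 2) (dist y x) at hz
  have hne : y ≠ z := by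
    rintro rfl
    exact absurd (hz.trans_le (min_le_right _ _)) (lt_irrefl _)
  have h1 := hP y hyP z hzP hne
  rw [← dist_eq_norm] at h1
  have h2 := dist_triangle_right y z x
  have h3 := hz.trans_le (min_le_left _ _)
  linarith

theorem NLP : NLP_stmt := by
  classical
  intro U ι _ _ p c hc hsep
  have c1 : ∀ q ∈ LP U ι p, ∀ q' ∈ LP U ι p, q ≠ q' → c ≤ ‖q - q'‖ := by
    rintro q ⟨i, hi⟩ q' ⟨i', hi'⟩ hne
    rcases Ultrafilter.em U (fun m => i m = i' m) with h | h
    · exfalso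
      apply hne
      refine tendsto_nhds_unique hi (hi'.congr' ?_)
      filter_upwards [h] with m hm
      rw [hm]
    · refine ge_of_tendsto (hi.sub hi').norm ?_
      filter_upwards [h, hsep] with m hm hs
      exact hs _ _ hm
  have c2 : ∀ (i i' : ∀ m, ι m) (q : ℂ), Tendsto (fun m => p m (i m)) U (𝓝 q) →
      Tendsto (fun m => p m (i' m)) U (𝓝 q) → ∀ᶠ m in (U : Filter ℕ), i m = i' m := by
    intro i i' q hi hi'
    have h1 := (hi.sub hi').norm
    rw [sub_self, norm_zero] at h1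
    filter_upwards [h1.eventually_lt_const hc, hsep] with m hm hs
    by_contra hne
    exact absurd (hs _ _ hne) (not_le.2 hm)
  refine ⟨c1, c2, ?_, ?_⟩
  · intro x hx
    have hex : ∀ m, ∃ i : ι m, ∀ j, ‖p m i - x‖ ≤ ‖p m j - x‖ := fun m =>
      Finite.exists_min (fun i => ‖p m i - x‖)
    choose i hi using hex
    have hnt : ¬ Tendsto (fun m => p m (i m)) U (𝓝 x) := fun h => hx ⟨i, h⟩
    rw [Metric.tendsto_nhds] at hnt
    push Not at hnt
    obtain ⟨ε, hε, hn⟩ := hnt
    refine ⟨ε, hε, ?_⟩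
    have h2 : ∀ᶠ m in (U : Filter ℕ), ε ≤ dist (p m (i m)) x := hn
    filter_upwards [h2] with m hm j
    rw [dist_eq_norm] at hm
    exact hm.trans (hi m j)
  · intro R hR
    have hlab : ∀ q : ℂ, ∃ lab : ∀ m, ι m, q ∈ LP U ι p → Tendsto (fun m => p m (lab m)) U (𝓝 q) := by
      intro q
      by_cases hq : q ∈ LP U ι p
      · obtain ⟨i, hi⟩ := hq
        exact ⟨i, fun _ => hi⟩
      · exact ⟨fun m => Classical.arbitrary _, fun h => absurd h hq⟩
    choose lab hl using hlab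
    refine ⟨lab, fun q hq => hl q hq, ?_⟩
    have hfin := NLP_fin (LP U ι p) c R hc c1
    have hA : ∀ᶠ m in (U : Filter ℕ), ∀ q ∈ {q | q ∈ LP U ι p ∧ ‖q‖ < R}, ‖p m (lab q m)‖ < R := by
      rw [hfin.eventually_all]
      rintro q ⟨hq, hqR⟩
      exact (hl q hq).norm.eventually_lt_const hqR
    have hB : ∀ᶠ m in (U : Filter ℕ), ∀ j, ‖p m j‖ < R → ∃ q ∈ LP U ι p, ‖q‖ < R ∧ j = lab q m := by
      rcases Ultrafilter.em U (fun m => ∀ j, ‖p m j‖ < R → ∃ q ∈ LP U ι p, ‖q‖ < R ∧ j = lab q m) with h | h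
      · exact h
      · exfalso
        have hj : ∀ m, ∃ j : ι m, (¬ ∀ j, ‖p m j‖ < R → ∃ q ∈ LP U ι p, ‖q‖ < R ∧ j = lab q m) →
            ‖p m j‖ < R ∧ ¬ ∃ q ∈ LP U ι p, ‖q‖ < R ∧ j = lab q m := by
          intro m
          by_cases hm : ∀ j, ‖p m j‖ < R → ∃ q ∈ LP U ι p, ‖q‖ < R ∧ j = lab q m
          · exact ⟨Classical.arbitrary _, fun h => absurd hm h⟩
          · have hm' := hm
            push Not at hm'
            obtain ⟨j, h1, h2⟩ := hm'
            refine ⟨j, fun _ => ⟨h1, ?_⟩⟩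
            rintro ⟨q, hq, hqR, hjq⟩
            exact h2 q hq hqR hjq
        choose j hj' using hj
        have h1 : ∀ᶠ m in (U : Filter ℕ), ‖p m (j m)‖ < R ∧
            ¬ ∃ q ∈ LP U ι p, ‖q‖ < R ∧ j m = lab q m := by
          filter_upwards [h] with m hm
          exact hj' m hm
        have hmem : ∀ᶠ m in (U : Filter ℕ), p m (j m) ∈ closedBall (0 : ℂ) R := by
          filter_upwards [h1] with m hm
          rw [mem_closedBall_zero_iff]
          exact hm.1.le
        obtain ⟨q', hq'1, hq'2⟩ := (isCompact_closedBall (0 : ℂ) R).ultrafilter_le_nhds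
          (U.map fun m => p m (j m)) (by
            rw [Filter.le_principal_iff]
            exact hmem)
        have ht : Tendsto (fun m => p m (j m)) U (𝓝 q') := hq'2
        have hq'P : q' ∈ LP U ι p := ⟨j, ht⟩
        have hq'R : ‖q'‖ < R := by
          rw [mem_closedBall_zero_iff] at hq'1
          exact lt_of_le_of_ne hq'1 (hR q' hq'P)
        obtain ⟨m, hm1, hm2⟩ := (h1.and (c2 j (lab q') q' ht (hl q' hq'P))).exists
        exact hm1.2 ⟨q', hq'P, hq'R, hm2⟩
    filter_upwards [hA, hB] with m hmA hmB j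
    constructor
    · exact hmB j
    · rintro ⟨q, hq, hqR, rfl⟩
      exact hmA q ⟨hq, hqR⟩

end V3
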